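import Pool.Agent.U481.GL.Stm

set_option autoImplicit false

/-! Project GL, package NA: the weights are `A_p` weights. -/

open MeasureTheory Filter Topology Set
open scoped ENNReal NNReal Real

namespace Pool.Agent.U208.GL.NA

open Pool.Agent.U481.HW Pool.Agent.U481.GL

noncomputable def c1 : ℝ := 3 / (289 * π)

theorem c1_pos : 0 < c1 := by
  unfold c1
  have := Real.pi_pos
  positivity

theorem ky_ge {L x y : ℝ} (hL : 0 < L) (hx : 2 * L < x) (hx' : x < 4 * L) (hy : L / 2 < y)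
    (hy' : y < L) : c1 / L ^ 2 ≤ ky x y := by
  unfold c1 ky
  have hπ := Real.pi_pos
  have hy0 : 0 < y := by linarith
  have hx0 : 0 < x := by linarith
  have h1 : 3 * L ^ 2 ≤ x ^ 2 - y ^ 2 := by nlinarith
  have h2 : x ^ 2 + y ^ 2 ≤ 17 * L ^ 2 := by nlinarith
  have h3 : 0 < x ^ 2 + y ^ 2 := by positivity
  have h4 : (x ^ 2 + y ^ 2) ^ 2 ≤ (17 * L ^ 2) ^ 2 := pow_le_pow_left₀ h3.le h2 2
  have h5 : (x ^ 2 + y ^ 2) ^ 2 ≤ 289 * L ^ 4 := by
    calc _ ≤ _ := h4
      _ = 289 * L ^ 4 := by ring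
  rw [div_div, div_le_div_iff₀ (by positivity) (by positivity)]
  calc 3 * (π * (x ^ 2 + y ^ 2) ^ 2) ≤ 3 * (π * (289 * L ^ 4)) := by gcongr
    _ = (3 * L ^ 2) * (289 * π * L ^ 2) := by ring
    _ ≤ (x ^ 2 - y ^ 2) * (289 * π * L ^ 2) := by gcongr

theorem ky_abs {x y : ℝ} (hy : 0 < y) : |ky x y| ≤ 1 / (π * y ^ 2) := by
  unfold ky
  have hπ := Real.pi_pos
  have h3 : 0 < x ^ 2 + y ^ 2 := by positivity
  rw [abs_div, abs_of_pos (show 0 < π * (x ^ 2 + y ^ 2) ^ 2 by positivity),
    div_le_div_iff₀ (by positivity) (by positivity), one_mul]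
  have h4 : |x ^ 2 - y ^ 2| ≤ x ^ 2 + y ^ 2 := by
    rw [abs_le]
    constructor <;> nlinarith [sq_nonneg x, sq_nonneg y]
  have h5 : y ^ 2 ≤ x ^ 2 + y ^ 2 := by nlinarith [sq_nonneg x]
  calc |x ^ 2 - y ^ 2| * (π * y ^ 2) ≤ (x ^ 2 + y ^ 2) * (π * (x ^ 2 + y ^ 2)) := by gcongr
    _ = π * (x ^ 2 + y ^ 2) ^ 2 := by ring

theorem ky_meas (z y : ℝ) : Measurable fun t => ky (z - t) y := by
  unfold ky
  fun_prop

section

variable {a b : ℝ} (hab : a < b) {h : ℝ → ℝ≥0} (hm : Measurable h) {n : ℝ≥0} (hn : ∀ x, h x ≤ n)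
  (hs : ∀ x, x ∉ Ioo a b → h x = 0)

include hm hn hs in
theorem h_int : Integrable fun t => (h t : ℝ) := by
  have h1 : Integrable (fun t => (Ioo a b).indicator (fun _ => (n : ℝ)) t) := by
    rw [integrable_indicator_iff measurableSet_Ioo]
    exact integrableOn_const measure_Ioo_lt_top.ne
  refine h1.mono' hm.coe_nnreal_real.aestronglyMeasurable (ae_of_all _ fun t => ?_)
  rw [Real.norm_of_nonneg (NNReal.coe_nonneg (h t))]
  by_cases ht : t ∈ Ioo a b
  · rw [indicator_of_mem ht]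
    exact_mod_cast hn t
  · rw [hs t ht, indicator_of_notMem ht]
    simp

include hm hn hs in
theorem h_lint : ∫⁻ t, (h t : ℝ≥0∞) = ENNReal.ofReal (∫ t, (h t : ℝ)) := by
  rw [ofReal_integral_eq_lintegral_ofReal (h_int hm hn hs) (ae_of_all _ fun t => (h t).2)]
  simp

include hab hm hn hs in
theorem Gy_ge (q : ℝ × ℝ) (hq1 : q.1 ∈ Ioo (b + 2 * (b - a)) (b + 3 * (b - a)))
    (hq2 : q.2 ∈ Ioo ((b - a) / 2) (b - a)) :
    ENNReal.ofReal (c1 / (b - a) ^ 2) * ∫⁻ t, (h t : ℝ≥0∞) ≤
      ‖Gy (fun t => ((h t : ℝ) : ℂ)) q‖ₑ := by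
  have hL : 0 < b - a := by linarith
  have hy0 : 0 < q.2 := by
    have := hq2.1
    linarith
  have h1 : Gy (fun t => ((h t : ℝ) : ℂ)) q = ((∫ t, ky (q.1 - t) q.2 * (h t : ℝ) : ℝ) : ℂ) := by
    unfold Gy
    rw [← integral_complex_ofReal]
    congr 1
    funext t
    push_cast
    rfl
  have hkint : Integrable fun t => ky (q.1 - t) q.2 * (h t : ℝ) := by
    refine ((h_int hm hn hs).const_mul (1 / (π * q.2 ^ 2))).mono'
      ((ky_meas _ _).mul hm.coe_nnreal_real).aestronglyMeasurable (ae_of_all _ fun t => ?_)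
    rw [norm_mul, Real.norm_of_nonneg (NNReal.coe_nonneg (h t))]
    exact mul_le_mul_of_nonneg_right (ky_abs hy0) (h t).2
  have h2 : c1 / (b - a) ^ 2 * ∫ t, (h t : ℝ) ≤ ∫ t, ky (q.1 - t) q.2 * (h t : ℝ) := by
    rw [← integral_const_mul]
    refine integral_mono ((h_int hm hn hs).const_mul _) hkint fun t => ?_
    simp only
    by_cases ht : t ∈ Ioo a b
    · refine mul_le_mul_of_nonneg_right (ky_ge hL ?_ ?_ hq2.1 hq2.2) (h t).2
      · have := hq1.1
        have := ht.2
        linarith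
      · have := hq1.2
        have := ht.1
        linarith
    · rw [hs t ht]
      simp
  rw [h1, h_lint hm hn hs, ← ENNReal.ofReal_mul (by have := c1_pos; positivity),
    ← ofReal_norm, Complex.norm_real]
  exact ENNReal.ofReal_le_ofReal (h2.trans (le_abs_self _))

/-- the constant -/
noncomputable def kap (l : ℝ) : ℝ := (1 / 10 : ℝ) ^ l * c1 ^ 2 / 2

theorem kap_pos (l : ℝ) : 0 < kap l := by
  unfold kap
  have := c1_pos
  positivity

include hab hm hn hs in
theorem gstar_ge (hdrv : S_drv) {l : ℝ} (hl : 0 < l) {x : ℝ} (hx : x ∈ Ioo a b)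
    (hf : Integrable (fun x => ((h x : ℝ) : ℂ) / ((1 + x ^ 2 : ℝ) : ℂ))) :
    ENNReal.ofReal (√(kap l) / (b - a)) * ∫⁻ t, (h t : ℝ≥0∞) ≤
      gstar l (fun t => ((h t : ℝ) : ℂ)) x := by
  have hL : 0 < b - a := by linarith
  obtain ⟨H, hH⟩ : ∃ H, H = ∫⁻ t, (h t : ℝ≥0∞) := ⟨_, rfl⟩
  let R : Set (ℝ × ℝ) := Ioo (b + 2 * (b - a)) (b + 3 * (b - a)) ×ˢ Ioo ((b - a) / 2) (b - a)
  have hR : MeasurableSet R := measurableSet_Ioo.prod measurableSet_Ioo
  have hsub : R ⊆ {q : ℝ × ℝ | 0 < q.2} := by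
    rintro q ⟨-, h2⟩
    have := h2.1
    change 0 < q.2
    linarith
  have hvol : volume R = ENNReal.ofReal (b - a) * ENNReal.ofReal ((b - a) / 2) := by
    rw [Measure.volume_eq_prod, Measure.prod_prod, Real.volume_Ioo, Real.volume_Ioo]
    congr 2 <;> ring
  have h1 : (ENNReal.ofReal (√(kap l) / (b - a)) * H) ^ 2 ≤
      ∫⁻ q in {q : ℝ × ℝ | 0 < q.2}, ENNReal.ofReal ((q.2 / (|x - q.1| + q.2)) ^ l) *
        gr (fun t => ((h t : ℝ) : ℂ)) q := by
    calc (ENNReal.ofReal (√(kap l) / (b - a)) * H) ^ 2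
        = (ENNReal.ofReal ((1 / 10 : ℝ) ^ l) * (ENNReal.ofReal (c1 / (b - a) ^ 2) * H) ^ 2) *
            volume R := by
          rw [hvol, mul_pow, mul_pow, ← ENNReal.ofReal_pow (by positivity),
            ← ENNReal.ofReal_pow (by have := c1_pos; positivity)]
          have e1 : ENNReal.ofReal ((1 / 10 : ℝ) ^ l) *
              (ENNReal.ofReal ((c1 / (b - a) ^ 2) ^ 2) * H ^ 2) *
              (ENNReal.ofReal (b - a) * ENNReal.ofReal ((b - a) / 2)) =
              (ENNReal.ofReal ((1 / 10 : ℝ) ^ l) * ENNReal.ofReal ((c1 / (b - a) ^ 2) ^ 2) *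
                (ENNReal.ofReal (b - a) * ENNReal.ofReal ((b - a) / 2))) * H ^ 2 := by ring
          rw [e1, ← ENNReal.ofReal_mul (by positivity), ← ENNReal.ofReal_mul (by positivity),
            ← ENNReal.ofReal_mul (by positivity)]
          congr 2
          rw [div_pow, Real.sq_sqrt (kap_pos l).le]
          unfold kap
          field_simp
      _ = ∫⁻ _q in R, (ENNReal.ofReal ((1 / 10 : ℝ) ^ l) *
            (ENNReal.ofReal (c1 / (b - a) ^ 2) * H) ^ 2) := by
          rw [setLIntegral_const]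
      _ ≤ ∫⁻ q in R, ENNReal.ofReal ((q.2 / (|x - q.1| + q.2)) ^ l) *
            gr (fun t => ((h t : ℝ) : ℂ)) q := by
          refine setLIntegral_mono' hR fun q hq => ?_
          have hq0 : 0 < q.2 := hsub hq
          refine mul_le_mul' ?_ ?_
          · apply ENNReal.ofReal_le_ofReal
            apply Real.rpow_le_rpow (by norm_num) _ hl.le
            have b1 := hq.1.1
            have b2 := hq.1.2
            have b3 := hq.2.1
            have b4 := hq.2.2
            have b5 := hx.1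
            have b6 := hx.2
            have b7 : |x - q.1| ≤ 4 * (b - a) := by
              rw [abs_le]
              constructor <;> linarith
            have b8 : 0 ≤ |x - q.1| := abs_nonneg _
            rw [div_le_div_iff₀ (by norm_num) (by linarith)]
            linarith
          · rw [hdrv _ hf q hq0]
            unfold G2
            refine le_trans ?_ le_add_self
            have := Gy_ge hab hm hn hs q hq.1 hq.2
            rw [← hH] at this
            exact pow_le_pow_left' this 2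
      _ ≤ _ := lintegral_mono_set hsub
  rw [← hH]
  unfold gstar GS
  calc ENNReal.ofReal (√(kap l) / (b - a)) * H
      = ((ENNReal.ofReal (√(kap l) / (b - a)) * H) ^ 2) ^ (1 / 2 : ℝ) := by
        rw [← ENNReal.rpow_natCast, ← ENNReal.rpow_mul]
        norm_num
    _ ≤ _ := ENNReal.rpow_le_rpow h1 (by norm_num)

end

theorem pt_le {p : ℝ} (hp : 1 < p) (u s t : ℝ≥0∞) (hs : s = u ^ (-1 / (p - 1))) (ht : t ≤ s)
    (ht' : t ≠ ⊤) : t ^ p * u ≤ t := by
  have hp0 : 0 < p - 1 := by linarith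
  by_cases h0 : t = 0
  · rw [h0, ENNReal.zero_rpow_of_pos (by linarith), zero_mul]
  · have h1 : t ^ p = t ^ (p - 1) * t := by
      conv_lhs => rw [show p = (p - 1) + 1 by ring]
      rw [ENNReal.rpow_add _ _ h0 ht', ENNReal.rpow_one]
    have h2 : t ^ (p - 1) * u ≤ 1 := by
      have h3 : t ^ (p - 1) ≤ u⁻¹ := by
        refine (ENNReal.rpow_le_rpow ht hp0.le).trans_eq ?_
        rw [hs, ← ENNReal.rpow_mul, ← ENNReal.rpow_neg_one]
        congr 1
        field_simp
      calc t ^ (p - 1) * u ≤ u⁻¹ * u := mul_le_mul_left h3 u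
        _ ≤ 1 := ENNReal.inv_mul_le_one u
    calc t ^ p * u = (t ^ (p - 1) * u) * t := by rw [h1]; ring
      _ ≤ 1 * t := mul_le_mul_left h2 t
      _ = t := one_mul t

theorem main : S_drv → S_na := by
  intro hdrv l p hl hp U hU hG
  obtain ⟨C, hC, hG⟩ := hG
  have hp0 : 0 < p := by linarith
  have hp1 : 0 < p - 1 := by linarith
  refine ⟨hU, C * ENNReal.ofReal (1 / √(kap l)) ^ p, ?_, fun a b hab => ?_⟩
  · exact ENNReal.mul_lt_top hC (ENNReal.rpow_lt_top_of_nonneg hp0.le ENNReal.ofReal_ne_top)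
  have hL : 0 < b - a := by linarith
  have hkap := kap_pos l
  have hsq : 0 < √(kap l) := Real.sqrt_pos.2 hkap
  set V := ∫⁻ x in Ioo a b, (U x : ℝ≥0∞) with hV
  have hVf : V < ⊤ := hU.fin a b
  let s : ℝ → ℝ≥0∞ := fun x => (U x : ℝ≥0∞) ^ (-1 / (p - 1))
  have hsm : Measurable s := hU.meas.coe_nnreal_ennreal.pow_const _
  set A := ENNReal.ofReal (√(kap l) / (b - a)) with hA
  have hA0 : A ≠ 0 := by
    rw [hA]
    exact (ENNReal.ofReal_pos.2 (by positivity)).ne'
  have hAt : A ≠ ⊤ := ENNReal.ofReal_ne_top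
  -- truncations
  let t : ℕ → ℝ → ℝ≥0∞ := fun n x => (Ioo a b).indicator (fun x => min (s x) n) x
  have htm : ∀ n, Measurable (t n) := fun n =>
    (hsm.min measurable_const).indicator measurableSet_Ioo
  have htn : ∀ n x, t n x ≤ n := by
    intro n x
    by_cases hx : x ∈ Ioo a b
    · change (Ioo a b).indicator (fun x => min (s x) n) x ≤ n
      rw [indicator_of_mem hx]
      exact min_le_right _ _
    · change (Ioo a b).indicator (fun x => min (s x) n) x ≤ n
      rw [indicator_of_notMem hx]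
      exact zero_le
  have httop : ∀ n x, t n x ≠ ⊤ := fun n x =>
    ne_top_of_le_ne_top (ENNReal.natCast_ne_top n) (htn n x)
  have key : ∀ n : ℕ, A ^ p * (∫⁻ x, t n x) ^ (p - 1) * V ≤ C := by
    intro n
    let h : ℝ → ℝ≥0 := fun x => (t n x).toNNReal
    have hh : ∀ x, (h x : ℝ≥0∞) = t n x := fun x => ENNReal.coe_toNNReal (httop n x)
    have hhm : Measurable h := (htm n).ennreal_toNNReal
    have hhn : ∀ x, h x ≤ (n : ℝ≥0) := by
      intro x
      have : (h x : ℝ≥0∞) ≤ ((n : ℝ≥0) : ℝ≥0∞) := by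
        rw [hh]
        exact_mod_cast htn n x
      exact_mod_cast this
    have hhs : ∀ x, x ∉ Ioo a b → h x = 0 := by
      intro x hx
      change (t n x).toNNReal = 0
      have : t n x = 0 := indicator_of_notMem hx _
      rw [this]
      simp
    have hf : Integrable (fun x => ((h x : ℝ) : ℂ) / ((1 + x ^ 2 : ℝ) : ℂ)) := by
      have h1 := h_int hhm hhn hhs
      refine h1.mono ?_ (ae_of_all _ fun x => ?_)
      · apply Measurable.aestronglyMeasurable
        have : Measurable fun x => (h x : ℝ) := hhm.coe_nnreal_real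
        fun_prop
      · rw [norm_div, Complex.norm_real, Complex.norm_real]
        have h3 : (1 : ℝ) ≤ ‖(1 + x ^ 2 : ℝ)‖ := by
          rw [Real.norm_of_nonneg (by positivity)]
          nlinarith [sq_nonneg x]
        exact div_le_self (norm_nonneg _) h3
    have hen : ∀ x, ‖((h x : ℝ) : ℂ)‖ₑ = t n x := by
      intro x
      rw [← hh, ← ofReal_norm, Complex.norm_real, Real.norm_of_nonneg (NNReal.coe_nonneg (h x))]
      exact ENNReal.ofReal_coe_nnreal
    obtain ⟨H, hH⟩ : ∃ H, H = ∫⁻ x, t n x := ⟨_, rfl⟩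
    have hHh : ∫⁻ x, (h x : ℝ≥0∞) = H := by
      rw [hH]
      exact lintegral_congr hh
    have hHt : H ≠ ⊤ := by
      rw [← hHh, h_lint hhm hhn hhs]
      exact ENNReal.ofReal_ne_top
    have hpU : ∫⁻ x, ‖((h x : ℝ) : ℂ)‖ₑ ^ p * (U x : ℝ≥0∞) ≤ H := by
      rw [hH]
      refine lintegral_mono fun x => ?_
      rw [hen]
      by_cases hx : x ∈ Ioo a b
      · refine pt_le hp _ (s x) _ rfl ?_ (httop n x)
        change (Ioo a b).indicator (fun x => min (s x) n) x ≤ s x
        rw [indicator_of_mem hx]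
        exact min_le_left _ _
      · have : t n x = 0 := indicator_of_notMem hx _
        rw [this, ENNReal.zero_rpow_of_pos hp0, zero_mul]
    have h2 := hG (fun x => ((h x : ℝ) : ℂ)) hf (lt_of_le_of_lt hpU hHt.lt_top)
    have h3 : (A * H) ^ p * V ≤ C * H := by
      calc (A * H) ^ p * V = ∫⁻ x in Ioo a b, (A * H) ^ p * (U x : ℝ≥0∞) := by
            rw [lintegral_const_mul _ hU.meas.coe_nnreal_ennreal]
        _ ≤ ∫⁻ x in Ioo a b, (gstar l (fun x => ((h x : ℝ) : ℂ)) x) ^ p * (U x : ℝ≥0∞) := by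
            refine setLIntegral_mono' measurableSet_Ioo fun x hx => ?_
            refine mul_le_mul_left (ENNReal.rpow_le_rpow ?_ hp0.le) _
            have := gstar_ge hab hhm hhn hhs hdrv (by linarith : 0 < l) hx hf
            rwa [hHh] at this
        _ ≤ ∫⁻ x, (gstar l (fun x => ((h x : ℝ) : ℂ)) x) ^ p * (U x : ℝ≥0∞) :=
            setLIntegral_le_lintegral _ _
        _ ≤ C * ∫⁻ x, ‖((h x : ℝ) : ℂ)‖ₑ ^ p * (U x : ℝ≥0∞) := h2
        _ ≤ C * H := mul_le_mul_right hpU C
    rw [← hH]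
    by_cases h0 : H = 0
    · rw [h0, ENNReal.zero_rpow_of_pos hp1, mul_zero, zero_mul]
      exact zero_le
    · have h4 : H ^ p = H ^ (p - 1) * H := by
        conv_lhs => rw [show p = (p - 1) + 1 by ring]
        rw [ENNReal.rpow_add _ _ h0 hHt, ENNReal.rpow_one]
      have h5 : (A ^ p * H ^ (p - 1) * V) * H ≤ C * H := by
        refine le_trans (le_of_eq ?_) h3
        rw [ENNReal.mul_rpow_of_nonneg _ _ hp0.le, h4]
        ring
      exact (ENNReal.mul_le_mul_iff_left h0 hHt).1 h5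
  -- the limit
  have hmono : Monotone t := by
    intro m n hmn x
    by_cases hx : x ∈ Ioo a b
    · change (Ioo a b).indicator (fun x => min (s x) m) x ≤ (Ioo a b).indicator (fun x => min (s x) n) x
      rw [indicator_of_mem hx, indicator_of_mem hx]
      exact min_le_min_left _ (by exact_mod_cast hmn)
    · change (Ioo a b).indicator (fun x => min (s x) m) x ≤ (Ioo a b).indicator (fun x => min (s x) n) x
      rw [indicator_of_notMem hx, indicator_of_notMem hx]
  have hsup : ∫⁻ x in Ioo a b, s x = ⨆ n, ∫⁻ x, t n x := by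
    rw [← lintegral_iSup htm hmono, ← lintegral_indicator measurableSet_Ioo]
    refine lintegral_congr fun x => ?_
    by_cases hx : x ∈ Ioo a b
    · rw [indicator_of_mem hx]
      apply le_antisymm
      · refine le_of_forall_lt fun c hc => ?_
        obtain ⟨n, hn⟩ := ENNReal.exists_nat_gt (ne_top_of_lt hc)
        have : c < t n x := by
          change c < (Ioo a b).indicator (fun x => min (s x) n) x
          rw [indicator_of_mem hx]
          exact lt_min hc hn
        exact lt_of_lt_of_le this (le_iSup (fun n => t n x) n)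
      · refine iSup_le fun n => ?_
        change (Ioo a b).indicator (fun x => min (s x) n) x ≤ s x
        rw [indicator_of_mem hx]
        exact min_le_left _ _
    · rw [indicator_of_notMem hx]
      symm
      rw [ENNReal.iSup_eq_zero]
      intro n
      exact indicator_of_notMem hx _
  have hlim : Tendsto (fun n => A ^ p * (∫⁻ x, t n x) ^ (p - 1) * V) atTop
      (𝓝 (A ^ p * (∫⁻ x in Ioo a b, s x) ^ (p - 1) * V)) := by
    rw [hsup]
    have h1 : Tendsto (fun n => ∫⁻ x, t n x) atTop (𝓝 (⨆ n, ∫⁻ x, t n x)) :=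
      tendsto_atTop_iSup fun m n hmn => lintegral_mono (hmono hmn)
    have h2 := (ENNReal.continuous_rpow_const (y := p - 1)).continuousAt.tendsto.comp h1
    have h3 := ENNReal.Tendsto.const_mul (a := A ^ p) h2
      (Or.inr (ENNReal.rpow_lt_top_of_nonneg hp0.le hAt).ne)
    exact ENNReal.Tendsto.mul_const h3 (Or.inr hVf.ne)
  have hfin := le_of_tendsto' hlim key
  have hAp0 : A ^ p ≠ 0 := by
    intro h0
    rw [ENNReal.rpow_eq_zero_iff] at h0
    rcases h0 with h0 | h0
    · exact hA0 h0.1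
    · exact hAt h0.1
  have hApt : A ^ p ≠ ⊤ := (ENNReal.rpow_lt_top_of_nonneg hp0.le hAt).ne
  have e1 : ENNReal.ofReal (1 / √(kap l)) * ENNReal.ofReal (b - a) = A⁻¹ := by
    rw [hA, ← ENNReal.ofReal_inv_of_pos (by positivity), ← ENNReal.ofReal_mul (by positivity)]
    congr 1
    field_simp
  calc V * (∫⁻ x in Ioo a b, s x) ^ (p - 1)
      = (A ^ p)⁻¹ * (A ^ p * (∫⁻ x in Ioo a b, s x) ^ (p - 1) * V) := by
        rw [mul_assoc, ← mul_assoc ((A ^ p)⁻¹), ENNReal.inv_mul_cancel hAp0 hApt, one_mul, mul_comm]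
    _ ≤ (A ^ p)⁻¹ * C := mul_le_mul_right hfin _
    _ = C * ENNReal.ofReal (1 / √(kap l)) ^ p * ENNReal.ofReal (b - a) ^ p := by
        rw [mul_assoc, ← ENNReal.mul_rpow_of_nonneg _ _ hp0.le, e1, ENNReal.inv_rpow, mul_comm]

end Pool.Agent.U208.GL.NA
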